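import Pool.Agent.Lib_helper28.BB.HYPM

open MeasureTheory ProbabilityTheory Set Metric Function
open scoped ENNReal NNReal

namespace Pool.Agent.BB

/-- the point with height h over the point u -/
noncomputable def covPt {n : ℕ} (h : ℝ) (u : Fin n → ℝ) : EuclideanSpace ℝ (Fin (n + 1)) :=
  WithLp.toLp 2 (Fin.cons h u : Fin (n + 1) → ℝ)

theorem covPt_zero {n : ℕ} (h : ℝ) (u : Fin n → ℝ) : covPt h u 0 = h := by
  simp [covPt]

theorem covPt_succ {n : ℕ} (h : ℝ) (u : Fin n → ℝ) (i : Fin n) : covPt h u i.succ = u i := by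
  simp [covPt]

/-- points with close coordinates -/
theorem cov_close {n : ℕ} (s H : ℝ) (hs : 0 < s) (hH : 0 < H) (y z : HSpace n) (hy : y.1 0 = H)
    (hz : H ≤ z.1 0) (h : ∀ i, |y.1 i - z.1 i| ≤ s * H) :
    hdist 1 y z ≤ √(n + 1) * s := by
  have hz0 : 0 < z.1 0 := z.2
  have h1 : dist y.1 z.1 ≤ √(n + 1) * s * H := by
    rw [EuclideanSpace.dist_eq]
    apply Real.sqrt_le_iff.mpr
    refine ⟨by positivity, ?_⟩
    have e : (√(n + 1) * s * H) ^ 2 = ∑ _i : Fin (n + 1), (s * H) ^ 2 := by
      rw [Finset.sum_const, Finset.card_univ, Fintype.card_fin, mul_assoc, mul_pow,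
        Real.sq_sqrt (by positivity), nsmul_eq_mul]
      push_cast
      ring
    rw [e]
    refine Finset.sum_le_sum fun i _ => ?_
    rw [Real.dist_eq, ← sq_abs (s * H)]
    have := h i
    rw [sq_abs (s * H)]
    exact pow_le_pow_left₀ (abs_nonneg _) this 2
  have h2 : H ≤ √(y.1 0 * z.1 0) := by
    apply Real.le_sqrt_of_sq_le
    rw [hy, sq]
    exact mul_le_mul_of_nonneg_left hz hH.le
  have h3 : Real.sinh (hdist 1 y z / 2) ≤ √(n + 1) * s / 2 := by
    rw [hyp_sinh, div_le_iff₀ (by linarith)]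
    refine h1.trans ?_
    calc √(n + 1) * s * H ≤ √(n + 1) * s * √(y.1 0 * z.1 0) :=
          mul_le_mul_of_nonneg_left h2 (by positivity)
      _ = √(n + 1) * s / 2 * (2 * √(y.1 0 * z.1 0)) := by ring
  have h4 : hdist 1 y z / 2 ≤ Real.sinh (hdist 1 y z / 2) :=
    Real.self_le_sinh_iff.mpr (by have := hyp_nonneg y z; linarith)
  linarith

/-- horizontal displacement -/
theorem cov_hor {n : ℕ} (o z : HSpace n) (R : ℝ) (h : hdist 1 o z ≤ R) (i : Fin (n + 1)) :
    |z.1 i - o.1 i| ≤ √(o.1 0 * z.1 0) * Real.exp (R / 2) := by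
  have ho : 0 < o.1 0 := o.2
  have hz : 0 < z.1 0 := z.2
  have h1 : |z.1 i - o.1 i| ≤ dist o.1 z.1 := by
    rw [EuclideanSpace.dist_eq, ← Real.sqrt_sq_eq_abs]
    apply Real.sqrt_le_sqrt
    have := Finset.single_le_sum (f := fun i => dist (o.1 i) (z.1 i) ^ 2)
      (fun i _ => by positivity) (Finset.mem_univ i)
    rw [Real.dist_eq, sq_abs] at this
    calc (z.1 i - o.1 i) ^ 2 = (o.1 i - z.1 i) ^ 2 := by ring
      _ ≤ _ := this
  have h2 := hyp_sinh o z
  have hsq : 0 < √(o.1 0 * z.1 0) := Real.sqrt_pos.mpr (by positivity)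
  have h3 : dist o.1 z.1 = 2 * √(o.1 0 * z.1 0) * Real.sinh (hdist 1 o z / 2) := by
    rw [h2]; field_simp
  have h4 : Real.sinh (hdist 1 o z / 2) ≤ Real.exp (R / 2) / 2 := by
    rw [Real.sinh_eq]
    have := Real.exp_pos (-(hdist 1 o z / 2))
    have h5 : Real.exp (hdist 1 o z / 2) ≤ Real.exp (R / 2) := Real.exp_le_exp.mpr (by linarith)
    linarith
  refine h1.trans ?_
  rw [h3]
  calc 2 * √(o.1 0 * z.1 0) * Real.sinh (hdist 1 o z / 2)
      ≤ 2 * √(o.1 0 * z.1 0) * (Real.exp (R / 2) / 2) :=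
        mul_le_mul_of_nonneg_left h4 (by positivity)
    _ = _ := by ring

theorem cover_proof (n : ℕ) (hn : 1 ≤ n) (o : HSpace n) (r : ℝ) (hr : 0 < r) :
    ∃ K : ℝ, 0 < K ∧ ∀ R : ℝ, 0 ≤ R → ∃ Y : Finset (HSpace n),
      (Y.card : ℝ) ≤ K * Real.exp (n * R) ∧
      ∀ z, hdist 1 o z ≤ R → ∃ y ∈ Y, hdist 1 y z < r := by
  classical
  have ho : 0 < o.1 0 := o.2
  obtain ⟨s, hs, hsr⟩ : ∃ s : ℝ, 0 < s ∧ √(n + 1) * s < r := by
    have h1 : 0 < √((n : ℝ) + 1) := Real.sqrt_pos.mpr (by positivity)
    refine ⟨r / (2 * √(n + 1)), by positivity, ?_⟩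
    have : √((n : ℝ) + 1) * (r / (2 * √(n + 1))) = r / 2 := by field_simp
    rw [this]
    linarith
  set q : ℝ := (√(1 + s))⁻¹ with hq
  have hs1 : 1 < √(1 + s) := by
    rw [Real.lt_sqrt (by norm_num)]
    linarith
  have hq0 : 0 < q := by positivity
  have hq1 : q < 1 := inv_lt_one_of_one_lt₀ hs1
  set C1 : ℝ := √(1 + s) / s + 1 with hC1
  have hC1p : 0 < C1 := by positivity
  refine ⟨(2 * C1 + 1) ^ n / (1 - q), div_pos (by positivity) (by linarith), fun R hR => ?_⟩
  -- the heights
  let H : ℕ → ℝ := fun k => o.1 0 * Real.exp (-R) * (1 + s) ^ k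
  have hH : ∀ k, 0 < H k := fun k => by positivity
  have hMex : ∃ M : ℕ, Real.exp R * q ^ M < 1 := by
    obtain ⟨M, hM⟩ := exists_pow_lt_of_lt_one (Real.exp_pos (-R)) hq1
    refine ⟨M, ?_⟩
    calc Real.exp R * q ^ M < Real.exp R * Real.exp (-R) :=
          mul_lt_mul_of_pos_left hM (Real.exp_pos R)
      _ = 1 := by rw [← Real.exp_add]; simp
  let M : ℕ := Nat.find hMex
  have hM1 : ∀ k < M, 1 ≤ Real.exp R * q ^ k := fun k hk => not_lt.mp (Nat.find_min hMex hk)
  let m : ℕ → ℤ := fun k => ⌊C1 * (Real.exp R * q ^ k)⌋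
  let pt : ℕ → (Fin n → ℤ) → HSpace n := fun k j =>
    ⟨covPt (H k) (fun i => o.1 i.succ + s * H k * j i), by rw [covPt_zero]; exact hH k⟩
  refine ⟨(Finset.range M).biUnion fun k =>
    (Fintype.piFinset fun _ : Fin n => Finset.Icc (-(m k)) (m k)).image (pt k), ?_, ?_⟩
  · -- the cardinality
    have h1 : ∀ k < M, (((Fintype.piFinset fun _ : Fin n =>
        Finset.Icc (-(m k)) (m k)).image (pt k)).card : ℝ) ≤
          (2 * C1 + 1) ^ n * Real.exp (n * R) * q ^ k := by
      intro k hk
      have hX := hM1 k hk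
      have hm0 : 0 ≤ m k := Int.floor_nonneg.mpr (by positivity)
      have h2 : (((Fintype.piFinset fun _ : Fin n =>
        Finset.Icc (-(m k)) (m k)).image (pt k)).card : ℝ) ≤
          ((Fintype.piFinset fun _ : Fin n => Finset.Icc (-(m k)) (m k)).card : ℝ) := by
        exact_mod_cast Finset.card_image_le
      refine h2.trans ?_
      rw [Fintype.card_piFinset_const, Int.card_Icc]
      have h3 : (((m k + 1 - -(m k)).toNat : ℕ) : ℝ) = 2 * (m k : ℝ) + 1 := by
        have : (((m k + 1 - -(m k)).toNat : ℕ) : ℤ) = 2 * m k + 1 := by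
          rw [Int.toNat_of_nonneg (by linarith)]; ring
        exact_mod_cast this
      push_cast
      rw [h3]
      have h4 : (m k : ℝ) ≤ C1 * (Real.exp R * q ^ k) := Int.floor_le _
      have hm0' : (0 : ℝ) ≤ m k := by exact_mod_cast hm0
      have h5 : 2 * (m k : ℝ) + 1 ≤ (2 * C1 + 1) * (Real.exp R * q ^ k) := by nlinarith
      calc (2 * (m k : ℝ) + 1) ^ n ≤ ((2 * C1 + 1) * (Real.exp R * q ^ k)) ^ n :=
            pow_le_pow_left₀ (by linarith) h5 n
        _ = (2 * C1 + 1) ^ n * Real.exp (n * R) * (q ^ k) ^ n := by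
            rw [mul_pow, mul_pow, ← Real.exp_nat_mul]; ring
        _ ≤ _ := by
            refine mul_le_mul_of_nonneg_left ?_ (by positivity)
            have hqk : q ^ k ≤ 1 := pow_le_one₀ hq0.le hq1.le
            calc (q ^ k) ^ n ≤ (q ^ k) ^ 1 := pow_le_pow_of_le_one (by positivity) hqk hn
              _ = q ^ k := pow_one _
    calc ((((Finset.range M).biUnion fun k =>
        (Fintype.piFinset fun _ : Fin n => Finset.Icc (-(m k)) (m k)).image (pt k)).card : ℕ) : ℝ)
        ≤ ((∑ k ∈ Finset.range M, ((Fintype.piFinset fun _ : Fin n =>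
            Finset.Icc (-(m k)) (m k)).image (pt k)).card : ℕ) : ℝ) := by
          exact_mod_cast Finset.card_biUnion_le
      _ ≤ ∑ k ∈ Finset.range M, (2 * C1 + 1) ^ n * Real.exp (n * R) * q ^ k := by
          push_cast
          exact Finset.sum_le_sum fun k hk => h1 k (Finset.mem_range.mp hk)
      _ = (2 * C1 + 1) ^ n * Real.exp (n * R) * ∑ k ∈ Finset.range M, q ^ k := by
          rw [Finset.mul_sum]
      _ ≤ (2 * C1 + 1) ^ n * Real.exp (n * R) * (1 - q)⁻¹ := by
          refine mul_le_mul_of_nonneg_left ?_ (by positivity)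
          rw [← tsum_geometric_of_lt_one hq0.le hq1]
          exact (summable_geometric_of_lt_one hq0.le hq1).sum_le_tsum _
            (fun i _ => by positivity)
      _ = _ := by rw [div_eq_mul_inv]; ring
  · intro z hz
    have hz0 : 0 < z.1 0 := z.2
    have hlow : o.1 0 * Real.exp (-R) ≤ z.1 0 := by
      have h1 := hyp_height_le o z
      have h2 : o.1 0 ≤ z.1 0 * Real.exp R := h1.trans
        (mul_le_mul_of_nonneg_left (Real.exp_le_exp.mpr hz) hz0.le)
      calc o.1 0 * Real.exp (-R) ≤ z.1 0 * Real.exp R * Real.exp (-R) :=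
            mul_le_mul_of_nonneg_right h2 (Real.exp_pos _).le
        _ = z.1 0 := by rw [mul_assoc, ← Real.exp_add]; simp
    have hup : z.1 0 ≤ o.1 0 * Real.exp R := by
      have h1 := hyp_height_le z o
      rw [hyp_comm] at h1
      exact h1.trans (mul_le_mul_of_nonneg_left (Real.exp_le_exp.mpr hz) ho.le)
    have hoR : 0 < o.1 0 * Real.exp (-R) := by positivity
    obtain ⟨k, hk1, hk2⟩ := exists_nat_pow_near (x := z.1 0 / (o.1 0 * Real.exp (-R)))
      (y := 1 + s) ((one_le_div hoR).mpr hlow) (by linarith)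
    have hHk : H k ≤ z.1 0 := by
      rw [le_div_iff₀ hoR] at hk1
      change o.1 0 * Real.exp (-R) * (1 + s) ^ k ≤ _
      linarith
    have hHk2 : z.1 0 < H k * (1 + s) := by
      rw [div_lt_iff₀ hoR] at hk2
      change _ < o.1 0 * Real.exp (-R) * (1 + s) ^ k * (1 + s)
      rw [pow_succ] at hk2
      linarith
    have hq2 : ∀ k : ℕ, (q ^ k) ^ 2 * (1 + s) ^ k = 1 := by
      intro k
      rw [← pow_mul, mul_comm k 2, pow_mul, ← mul_pow]
      have : q ^ 2 * (1 + s) = 1 := by
        rw [hq, inv_pow, Real.sq_sqrt (by linarith)]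
        field_simp
      rw [this, one_pow]
    have hXk : 1 ≤ Real.exp R * q ^ k := by
      have h1 : 1 ≤ (Real.exp R * q ^ k) ^ 2 := by
        have h2 : H k ≤ o.1 0 * Real.exp R := hHk.trans hup
        change o.1 0 * Real.exp (-R) * (1 + s) ^ k ≤ o.1 0 * Real.exp R at h2
        have h3 : Real.exp (-R) * (1 + s) ^ k ≤ Real.exp R := by
          rw [mul_assoc] at h2
          exact le_of_mul_le_mul_left h2 ho
        have h4 : (q ^ k) ^ 2 * Real.exp R * (Real.exp (-R) * (1 + s) ^ k) ≤
            (q ^ k) ^ 2 * Real.exp R * Real.exp R :=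
          mul_le_mul_of_nonneg_left h3 (by positivity)
        have h5 : (q ^ k) ^ 2 * Real.exp R * (Real.exp (-R) * (1 + s) ^ k) = 1 := by
          have : Real.exp R * Real.exp (-R) = 1 := by rw [← Real.exp_add]; simp
          calc (q ^ k) ^ 2 * Real.exp R * (Real.exp (-R) * (1 + s) ^ k)
              = ((q ^ k) ^ 2 * (1 + s) ^ k) * (Real.exp R * Real.exp (-R)) := by ring
            _ = 1 := by rw [hq2, this, one_mul]
        calc (1 : ℝ) = _ := h5.symm
          _ ≤ _ := h4
          _ = _ := by ring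
      by_contra hcon
      push Not at hcon
      have : (Real.exp R * q ^ k) ^ 2 < 1 := by
        have h0 : 0 ≤ Real.exp R * q ^ k := by positivity
        nlinarith
      linarith
    have hkM : k < M := by
      by_contra hcon
      push Not at hcon
      have h1 : Real.exp R * q ^ M < 1 := Nat.find_spec hMex
      have h2 : q ^ k ≤ q ^ M := pow_le_pow_of_le_one hq0.le hq1.le hcon
      have h3 := mul_le_mul_of_nonneg_left h2 (Real.exp_pos R).le
      linarith
    have hsH : 0 < s * H k := mul_pos hs (hH k)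
    let j : Fin n → ℤ := fun i => ⌊(z.1 i.succ - o.1 i.succ) / (s * H k)⌋
    have hj : ∀ i, j i ∈ Finset.Icc (-(m k)) (m k) := by
      intro i
      have h1 := cov_hor o z R hz i.succ
      have h2 : |z.1 i.succ - o.1 i.succ| / (s * H k) ≤ √(1 + s) / s * (Real.exp R * q ^ k) := by
        rw [div_le_iff₀ hsH]
        refine h1.trans ?_
        have e1 : √(1 + s) / s * (Real.exp R * q ^ k) * (s * H k) =
            √(1 + s) * (Real.exp R * q ^ k) * H k := by field_simp
        rw [e1, ← sq_le_sq₀ (by positivity) (by have := hH k; positivity), mul_pow,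
          Real.sq_sqrt (by positivity), ← Real.exp_nat_mul, mul_pow, mul_pow, mul_pow,
          Real.sq_sqrt (by linarith)]
        have e2 : ((2 : ℕ) : ℝ) * (R / 2) = R := by push_cast; ring
        rw [e2]
        calc o.1 0 * z.1 0 * Real.exp R ≤ o.1 0 * (H k * (1 + s)) * Real.exp R := by
              have := hHk2.le
              gcongr
          _ = (1 + s) * (o.1 0 * Real.exp R) * H k := by ring
          _ = (1 + s) * ((Real.exp R) ^ 2 * (q ^ k) ^ 2 * H k) * H k := by
              congr 2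
              change o.1 0 * Real.exp R = (Real.exp R) ^ 2 * (q ^ k) ^ 2 *
                (o.1 0 * Real.exp (-R) * (1 + s) ^ k)
              have : Real.exp R * Real.exp (-R) = 1 := by rw [← Real.exp_add]; simp
              calc o.1 0 * Real.exp R = o.1 0 * Real.exp R * ((q ^ k) ^ 2 * (1 + s) ^ k) *
                    (Real.exp R * Real.exp (-R)) := by rw [hq2, this]; ring
                _ = _ := by ring
          _ = _ := by ring
      have h3 : |(z.1 i.succ - o.1 i.succ) / (s * H k)| ≤ √(1 + s) / s * (Real.exp R * q ^ k) := by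
        rw [abs_div, abs_of_pos hsH]
        exact h2
      have h4 := abs_le.mp h3
      rw [Finset.mem_Icc]
      constructor
      · rw [neg_le]
        apply Int.le_floor.mpr
        push_cast
        have h5 := Int.lt_floor_add_one ((z.1 i.succ - o.1 i.succ) / (s * H k))
        have h6 : C1 * (Real.exp R * q ^ k) = √(1 + s) / s * (Real.exp R * q ^ k) +
          (Real.exp R * q ^ k) := by rw [hC1]; ring
        rw [h6]
        have h7 : (j i : ℝ) = (⌊(z.1 i.succ - o.1 i.succ) / (s * H k)⌋ : ℝ) := rfl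
        linarith [h4.1]
      · apply Int.floor_le_floor
        refine h4.2.trans ?_
        refine mul_le_mul_of_nonneg_right ?_ (by positivity)
        rw [hC1]
        linarith
    refine ⟨pt k j, ?_, ?_⟩
    · rw [Finset.mem_biUnion]
      exact ⟨k, Finset.mem_range.mpr hkM, Finset.mem_image.mpr
        ⟨j, Fintype.mem_piFinset.mpr hj, rfl⟩⟩
    · refine (cov_close s (H k) hs (hH k) (pt k j) z (covPt_zero _ _) hHk ?_).trans_lt hsr
      intro i
      refine Fin.cases ?_ (fun i => ?_) i
      · change |covPt (H k) _ 0 - z.1 0| ≤ _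
        rw [covPt_zero, abs_le]
        constructor
        · nlinarith
        · nlinarith
      · change |covPt (H k) _ i.succ - z.1 i.succ| ≤ _
        rw [covPt_succ]
        have h5 := Int.lt_floor_add_one ((z.1 i.succ - o.1 i.succ) / (s * H k))
        have h6 := Int.floor_le ((z.1 i.succ - o.1 i.succ) / (s * H k))
        rw [div_lt_iff₀ hsH] at h5
        rw [le_div_iff₀ hsH] at h6
        rw [abs_le]
        constructor
        · have : s * H k * (j i : ℝ) = (⌊(z.1 i.succ - o.1 i.succ) / (s * H k)⌋ : ℝ) * (s * H k) :=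
            mul_comm _ _
          linarith
        · have : s * H k * (j i : ℝ) = (⌊(z.1 i.succ - o.1 i.succ) / (s * H k)⌋ : ℝ) * (s * H k) :=
            mul_comm _ _
          linarith

end Pool.Agent.BB
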