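import Pool.Agent.Lib_helper34.BB.Defs

open MeasureTheory ProbabilityTheory Set Metric Function
open scoped ENNReal NNReal

namespace Pool.Agent.BB

/-- reflection in the boundary -/
noncomputable def hypR {n : ℕ} (x : EuclideanSpace ℝ (Fin (n + 1))) :
    EuclideanSpace ℝ (Fin (n + 1)) := x - (2 * x 0) • EuclideanSpace.single 0 1

theorem hypR_zero {n : ℕ} (x : EuclideanSpace ℝ (Fin (n + 1))) : hypR x 0 = - x 0 := by
  unfold hypR
  simp
  ring

theorem hypR_succ {n : ℕ} (x : EuclideanSpace ℝ (Fin (n + 1))) (i : Fin n) :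
    hypR x i.succ = x i.succ := by
  unfold hypR
  simp

theorem hypR_dist_sq {n : ℕ} (x y : EuclideanSpace ℝ (Fin (n + 1))) :
    dist x (hypR y) ^ 2 = dist x y ^ 2 + 4 * x 0 * y 0 := by
  rw [EuclideanSpace.dist_eq, EuclideanSpace.dist_eq, Real.sq_sqrt (by positivity),
    Real.sq_sqrt (by positivity), Fin.sum_univ_succ, Fin.sum_univ_succ]
  simp only [hypR_succ, hypR_zero, Real.dist_eq, sq_abs]
  ring

theorem hypR_dist {n : ℕ} (x y : EuclideanSpace ℝ (Fin (n + 1))) :
    dist (hypR x) (hypR y) = dist x y := by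
  rw [EuclideanSpace.dist_eq, EuclideanSpace.dist_eq, Fin.sum_univ_succ, Fin.sum_univ_succ]
  simp only [hypR_succ, hypR_zero, Real.dist_eq, sq_abs]
  congr 2
  ring

theorem hypR_hypR {n : ℕ} (x : EuclideanSpace ℝ (Fin (n + 1))) : hypR (hypR x) = x := by
  ext i
  refine Fin.cases ?_ (fun j => ?_) i
  · rw [hypR_zero, hypR_zero, neg_neg]
  · rw [hypR_succ, hypR_succ]

theorem hypR_self {n : ℕ} (x : EuclideanSpace ℝ (Fin (n + 1))) (hx : 0 < x 0) :
    dist x (hypR x) = 2 * x 0 := by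
  have h := hypR_dist_sq x x
  rw [dist_self] at h
  have h2 : dist x (hypR x) ^ 2 = (2 * x 0) ^ 2 := by rw [h]; ring
  exact (sq_eq_sq₀ dist_nonneg (by positivity)).mp h2

theorem hyp_sinh {n : ℕ} (z w : HSpace n) :
    Real.sinh (hdist 1 z w / 2) = dist z.1 w.1 / (2 * √(z.1 0 * w.1 0)) := by
  unfold hdist
  rw [Real.sqrt_one, div_one, mul_div_cancel_left₀ _ two_ne_zero, Real.sinh_arsinh]

theorem hyp_cosh {n : ℕ} (z w : HSpace n) :
    Real.cosh (hdist 1 z w / 2) = dist z.1 (hypR w.1) / (2 * √(z.1 0 * w.1 0)) := by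
  have hz : 0 < z.1 0 := z.2
  have hw : 0 < w.1 0 := w.2
  rw [← sq_eq_sq₀ (Real.cosh_pos _).le (by positivity), Real.cosh_sq', hyp_sinh, div_pow, div_pow,
    mul_pow, Real.sq_sqrt (by positivity), hypR_dist_sq]
  field_simp
  ring

theorem hyp_nonneg {n : ℕ} (z w : HSpace n) : 0 ≤ hdist 1 z w := by
  unfold hdist
  have hz : 0 < z.1 0 := z.2
  have hw : 0 < w.1 0 := w.2
  have : 0 ≤ Real.arsinh (dist z.1 w.1 / (2 * √(z.1 0 * w.1 0))) :=
    Real.arsinh_nonneg_iff.mpr (by positivity)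
  positivity

theorem hyp_comm {n : ℕ} (z w : HSpace n) : hdist 1 z w = hdist 1 w z := by
  unfold hdist
  rw [dist_comm, mul_comm (z.1 0)]

theorem hyp_self {n : ℕ} (z : HSpace n) : hdist 1 z z = 0 := by
  unfold hdist
  simp

theorem hyp_eq {n : ℕ} {z w : HSpace n} (h : hdist 1 z w = 0) : z = w := by
  have h1 := hyp_sinh z w
  rw [h, zero_div, Real.sinh_zero] at h1
  have hz : 0 < z.1 0 := z.2
  have hw : 0 < w.1 0 := w.2
  have h2 : 2 * √(z.1 0 * w.1 0) ≠ 0 := by positivity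
  have h3 : dist z.1 w.1 = 0 := by
    rcases div_eq_zero_iff.mp h1.symm with h4 | h4
    · exact h4
    · exact absurd h4 h2
  exact Subtype.ext (dist_eq_zero.mp h3)

theorem hyp_triangle {n : ℕ} (a b c : HSpace n) :
    hdist 1 a c ≤ hdist 1 a b + hdist 1 b c := by
  have ha : 0 < a.1 0 := a.2
  have hb : 0 < b.1 0 := b.2
  have hc : 0 < c.1 0 := c.2
  have h1 : Real.sinh (hdist 1 a c / 2) ≤ Real.sinh ((hdist 1 a b + hdist 1 b c) / 2) := by
    rw [add_div, Real.sinh_add, hyp_sinh, hyp_sinh, hyp_sinh, hyp_cosh, hyp_cosh]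
    have h2 := EuclideanGeometry.mul_dist_le_mul_dist_add_mul_dist a.1 b.1 c.1 (hypR b.1)
    rw [hypR_self _ hb] at h2
    have h3 : dist b.1 (hypR c.1) = dist c.1 (hypR b.1) := by
      rw [← hypR_dist, hypR_hypR, dist_comm]
    have h4 : dist a.1 (hypR b.1) = dist a.1 (hypR b.1) := rfl
    have sa : 0 < √(a.1 0) := Real.sqrt_pos.mpr ha
    have sb : 0 < √(b.1 0) := Real.sqrt_pos.mpr hb
    have sc : 0 < √(c.1 0) := Real.sqrt_pos.mpr hc
    have qa : √(a.1 0) ^ 2 = a.1 0 := Real.sq_sqrt ha.le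
    have qb : √(b.1 0) ^ 2 = b.1 0 := Real.sq_sqrt hb.le
    have qc : √(c.1 0) ^ 2 = c.1 0 := Real.sq_sqrt hc.le
    rw [Real.sqrt_mul ha.le, Real.sqrt_mul ha.le, Real.sqrt_mul hb.le, h3]
    have e1 : dist a.1 b.1 / (2 * (√(a.1 0) * √(b.1 0))) *
        (dist c.1 (hypR b.1) / (2 * (√(b.1 0) * √(c.1 0)))) +
        dist a.1 (hypR b.1) / (2 * (√(a.1 0) * √(b.1 0))) *
        (dist b.1 c.1 / (2 * (√(b.1 0) * √(c.1 0)))) =
        (dist a.1 b.1 * dist c.1 (hypR b.1) + dist b.1 c.1 * dist a.1 (hypR b.1)) /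
          (4 * (√(a.1 0) * √(c.1 0)) * √(b.1 0) ^ 2) := by
      field_simp
      ring
    rw [e1, qb, div_le_div_iff₀ (by positivity) (by positivity)]
    calc dist a.1 c.1 * (4 * (√(a.1 0) * √(c.1 0)) * b.1 0)
        = (dist a.1 c.1 * (2 * b.1 0)) * (2 * (√(a.1 0) * √(c.1 0))) := by ring
      _ ≤ _ := mul_le_mul_of_nonneg_right h2 (by positivity)
  have := Real.sinh_le_sinh.mp h1
  linarith

theorem hyp_log_le {n : ℕ} (z w : HSpace n) : Real.log (z.1 0) - Real.log (w.1 0) ≤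
    hdist 1 z w := by
  have hz : 0 < z.1 0 := z.2
  have hw : 0 < w.1 0 := w.2
  have sz : 0 < √(z.1 0) := Real.sqrt_pos.mpr hz
  have sw : 0 < √(w.1 0) := Real.sqrt_pos.mpr hw
  have qz : √(z.1 0) ^ 2 = z.1 0 := Real.sq_sqrt hz.le
  have qw : √(w.1 0) ^ 2 = w.1 0 := Real.sq_sqrt hw.le
  have h1 : z.1 0 - w.1 0 ≤ dist z.1 w.1 := by
    have h2 : |z.1 0 - w.1 0| ≤ dist z.1 w.1 := by
      rw [EuclideanSpace.dist_eq, ← Real.sqrt_sq_eq_abs]
      apply Real.sqrt_le_sqrt
      have := Finset.single_le_sum (f := fun i => dist (z.1 i) (w.1 i) ^ 2)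
        (fun i _ => by positivity) (Finset.mem_univ (0 : Fin (n + 1)))
      simpa [Real.dist_eq] using this
    exact (le_abs_self _).trans h2
  have h3 : Real.sinh (Real.log (√(z.1 0) / √(w.1 0))) ≤ Real.sinh (hdist 1 z w / 2) := by
    rw [hyp_sinh, Real.sinh_log (by positivity), Real.sqrt_mul hz.le]
    have e1 : (√(z.1 0) / √(w.1 0) - (√(z.1 0) / √(w.1 0))⁻¹) / 2 =
        (√(z.1 0) ^ 2 - √(w.1 0) ^ 2) / (2 * (√(z.1 0) * √(w.1 0))) := by
      field_simp
    rw [e1, qz, qw]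
    exact div_le_div_of_nonneg_right h1 (by positivity)
  have h4 := Real.sinh_le_sinh.mp h3
  rw [Real.log_div sz.ne' sw.ne', Real.log_sqrt hz.le, Real.log_sqrt hw.le] at h4
  linarith

theorem hyp_height_le {n : ℕ} (z w : HSpace n) : z.1 0 ≤ w.1 0 * Real.exp (hdist 1 z w) := by
  have hz : 0 < z.1 0 := z.2
  have hw : 0 < w.1 0 := w.2
  have h := hyp_log_le z w
  calc z.1 0 = Real.exp (Real.log (z.1 0)) := (Real.exp_log hz).symm
    _ ≤ Real.exp (Real.log (w.1 0) + hdist 1 z w) := Real.exp_le_exp.mpr (by linarith)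
    _ = w.1 0 * Real.exp (hdist 1 z w) := by rw [Real.exp_add, Real.exp_log hw]

theorem hyp_dist_le {n : ℕ} (z w : HSpace n) :
    dist z.1 w.1 ≤ w.1 0 * (Real.exp (hdist 1 z w) - 1) := by
  have hz : 0 < z.1 0 := z.2
  have hw : 0 < w.1 0 := w.2
  have h0 := hyp_nonneg z w
  have h1 := hyp_sinh z w
  have hsq : 0 < √(z.1 0 * w.1 0) := Real.sqrt_pos.mpr (by positivity)
  have h2 : dist z.1 w.1 = 2 * √(z.1 0 * w.1 0) * Real.sinh (hdist 1 z w / 2) := by
    rw [h1]; field_simp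
  have h3 : √(z.1 0 * w.1 0) ≤ w.1 0 * Real.exp (hdist 1 z w / 2) := by
    apply Real.sqrt_le_iff.mpr
    refine ⟨by positivity, ?_⟩
    have e : (w.1 0 * Real.exp (hdist 1 z w / 2)) ^ 2 =
        w.1 0 * Real.exp (hdist 1 z w) * w.1 0 := by
      rw [mul_pow, ← Real.exp_nat_mul]
      have : ((2 : ℕ) : ℝ) * (hdist 1 z w / 2) = hdist 1 z w := by push_cast; ring
      rw [this]; ring
    rw [e]
    exact mul_le_mul_of_nonneg_right (hyp_height_le z w) hw.le
  have h4 : 0 ≤ Real.sinh (hdist 1 z w / 2) := Real.sinh_nonneg_iff.mpr (by linarith)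
  rw [h2]
  calc 2 * √(z.1 0 * w.1 0) * Real.sinh (hdist 1 z w / 2)
      ≤ 2 * (w.1 0 * Real.exp (hdist 1 z w / 2)) * Real.sinh (hdist 1 z w / 2) := by
        refine mul_le_mul_of_nonneg_right ?_ h4
        linarith
    _ = w.1 0 * (Real.exp (hdist 1 z w) - 1) := by
        rw [Real.sinh_eq]
        have e1 : Real.exp (hdist 1 z w / 2) * Real.exp (hdist 1 z w / 2) =
            Real.exp (hdist 1 z w) := by rw [← Real.exp_add]; congr 1; ring
        have e2 : Real.exp (hdist 1 z w / 2) * Real.exp (-(hdist 1 z w / 2)) = 1 := by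
          rw [← Real.exp_add]; simp
        linear_combination (w.1 0) * e1 - (w.1 0) * e2

/-- auxiliary metric -/
@[instance_reducible]
noncomputable def hypAux (n : ℕ) : MetricSpace (HSpace n) where
  dist z w := hdist 1 z w
  dist_self z := hyp_self z
  dist_comm z w := hyp_comm z w
  dist_triangle a b c := hyp_triangle a b c
  eq_of_dist_eq_zero h := hyp_eq h

/-- the subtype topology -/
@[instance_reducible]
def hypTop (n : ℕ) : TopologicalSpace (HSpace n) :=
  inferInstanceAs (TopologicalSpace {z : EuclideanSpace ℝ (Fin (n + 1)) // 0 < z 0})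

theorem hyp_top_eq (n : ℕ) :
    hypTop n = (hypAux n).toUniformSpace.toTopologicalSpace := by
  refine le_antisymm ?_ ?_
  · letI := hypTop n
    refine continuous_id_iff_le.1 ?_
    refine (@continuous_iff_continuous_dist (HSpace n) (HSpace n)
      (hypAux n).toPseudoMetricSpace _ _).2 ?_
    have hval : Continuous (fun z : HSpace n => z.1) := continuous_subtype_val
    have hv0 : Continuous (fun z : HSpace n => z.1 0) :=
      (EuclideanSpace.proj (0 : Fin (n + 1)) : EuclideanSpace ℝ (Fin (n + 1)) →L[ℝ] ℝ).continuous.comp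
        hval
    change Continuous (fun x : HSpace n × HSpace n => hdist 1 x.1 x.2)
    unfold hdist
    have h1 : ∀ x : HSpace n × HSpace n, 2 * √(x.1.1 0 * x.2.1 0) ≠ 0 := fun x => by
      have h1 : 0 < x.1.1 0 := x.1.2
      have h2 : 0 < x.2.1 0 := x.2.2
      positivity
    have hd : Continuous (fun x : HSpace n × HSpace n => dist x.1.1 x.2.1) :=
      (hval.comp continuous_fst).dist (hval.comp continuous_snd)
    have hs : Continuous (fun x : HSpace n × HSpace n => 2 * √(x.1.1 0 * x.2.1 0)) :=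
      continuous_const.mul (Real.continuous_sqrt.comp
        ((hv0.comp continuous_fst).mul (hv0.comp continuous_snd)))
    exact (continuous_const.mul (hd.div hs h1).arsinh).div_const _
  · letI : MetricSpace (HSpace n) := hypAux n
    refine le_of_nhds_le_nhds fun z => ?_
    have hz : 0 < z.1 0 := z.2
    have e : @nhds (HSpace n) (hypTop n) z = Filter.comap (fun z : HSpace n => z.1) (nhds z.1) :=
      nhds_induced _ _
    rw [e]
    refine (nhds_basis_ball.le_basis_iff (nhds_basis_ball.comap _)).2 fun R hR => ?_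
    have h₁ : 1 < R / z.1 0 + 1 := lt_add_of_pos_left _ (div_pos hR hz)
    have h₀ : 0 < R / z.1 0 + 1 := one_pos.trans h₁
    refine ⟨Real.log (R / z.1 0 + 1), Real.log_pos h₁, ?_⟩
    refine fun w hw => (hyp_dist_le w z).trans_lt ?_
    have hw' : hdist 1 w z < Real.log (R / z.1 0 + 1) := hw
    rwa [← lt_div_iff₀' hz, sub_lt_iff_lt_add, ← Real.lt_log_iff_exp_lt h₀]

/-- the hyperbolic metric with the subtype topology -/
@[instance_reducible]
noncomputable def hypMet (n : ℕ) : MetricSpace (HSpace n) :=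
  letI := hypTop n
  (hypAux n).replaceTopology (hyp_top_eq n)

theorem hyp_proper (n : ℕ) : @ProperSpace (HSpace n) (hypMet n).toPseudoMetricSpace := by
  letI := hypMet n
  refine ⟨fun z r => ?_⟩
  have hz : 0 < z.1 0 := z.2
  have hemb : Topology.IsEmbedding (fun z : HSpace n => z.1) := Topology.IsEmbedding.subtypeVal
  have hval : Continuous (fun z : HSpace n => z.1) := hemb.continuous
  let K : Set (EuclideanSpace ℝ (Fin (n + 1))) :=
    closedBall z.1 (z.1 0 * (Real.exp r - 1)) ∩ {x | z.1 0 * Real.exp (-r) ≤ x 0}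
  have hv0 : Continuous (fun z : EuclideanSpace ℝ (Fin (n + 1)) => z 0) :=
    (EuclideanSpace.proj (0 : Fin (n + 1)) : EuclideanSpace ℝ (Fin (n + 1)) →L[ℝ] ℝ).continuous
  have hK : IsCompact K := (isCompact_closedBall _ _).inter_right
    (isClosed_le continuous_const hv0)
  have hK2 : IsCompact ((fun z : HSpace n => z.1) ⁻¹' K) := by
    rw [hemb.isCompact_iff]
    have : (fun z : HSpace n => z.1) '' ((fun z : HSpace n => z.1) ⁻¹' K) = K := by
      rw [image_preimage_eq_inter_range]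
      refine inter_eq_left.mpr fun x hx => ?_
      have hx2 : z.1 0 * Real.exp (-r) ≤ x 0 := hx.2
      have : 0 < x 0 := lt_of_lt_of_le (by positivity) hx2
      exact ⟨⟨x, this⟩, rfl⟩
    rw [this]
    exact hK
  refine hK2.of_isClosed_subset isClosed_closedBall fun w hw => ?_
  have hw' : hdist 1 w z ≤ r := hw
  refine ⟨?_, ?_⟩
  · change dist w.1 z.1 ≤ _
    refine (hyp_dist_le w z).trans ?_
    have := Real.exp_le_exp.mpr hw'
    exact mul_le_mul_of_nonneg_left (by linarith) hz.le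
  · change z.1 0 * Real.exp (-r) ≤ w.1 0
    have h1 := hyp_height_le z w
    rw [hyp_comm] at h1
    have h2 : z.1 0 ≤ w.1 0 * Real.exp r := h1.trans
      (mul_le_mul_of_nonneg_left (Real.exp_le_exp.mpr hw') (le_of_lt w.2))
    calc z.1 0 * Real.exp (-r) ≤ w.1 0 * Real.exp r * Real.exp (-r) :=
          mul_le_mul_of_nonneg_right h2 (Real.exp_pos _).le
      _ = w.1 0 := by rw [mul_assoc, ← Real.exp_add]; simp

theorem hyp_borel (n : ℕ) : @BorelSpace (HSpace n) (hypTop n) _ := by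
  have : BorelSpace {z : EuclideanSpace ℝ (Fin (n + 1)) // 0 < z 0} := inferInstance
  exact this

theorem hyp_metric_proof (n : ℕ) : ∃ m : MetricSpace (HSpace n),
    (∀ z w : HSpace n, dist z w = hdist 1 z w) ∧ ProperSpace (HSpace n) ∧
      BorelSpace (HSpace n) :=
  ⟨hypMet n, fun _ _ => rfl, hyp_proper n, hyp_borel n⟩

end Pool.Agent.BB
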