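import Pool.Agent.Lib_helper34.BB.Defs

open MeasureTheory ProbabilityTheory Set Metric Function
open scoped ENNReal NNReal

namespace Pool.Agent.BB

theorem mob_half_meas (n : ℕ) :
    MeasurableSet {z : EuclideanSpace ℝ (Fin (n + 1)) | 0 < z 0} := by
  apply measurableSet_lt measurable_const
  exact (EuclideanSpace.proj (0 : Fin (n + 1)) : EuclideanSpace ℝ (Fin (n + 1)) →L[ℝ] ℝ).measurable

theorem mob_emb (n : ℕ) : MeasurableEmbedding
    (Subtype.val : HSpace n → EuclideanSpace ℝ (Fin (n + 1))) :=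
  MeasurableEmbedding.subtype_coe (mob_half_meas n)

theorem mob_hvol_aux (n : ℕ) {s : Set {z : EuclideanSpace ℝ (Fin (n + 1)) // 0 < z 0}}
    (hs : MeasurableSet s) :
    ((Measure.comap (Subtype.val : {z : EuclideanSpace ℝ (Fin (n + 1)) // 0 < z 0} →
    EuclideanSpace ℝ (Fin (n + 1))) volume).withDensity
    (fun z => ENNReal.ofReal ((√1 * z.1 0) ^ (n + 1))⁻¹)) s =
    ∫⁻ z in Subtype.val '' s, ENNReal.ofReal ((z 0) ^ (n + 1))⁻¹ := by
  have he : MeasurableEmbedding (Subtype.val : {z : EuclideanSpace ℝ (Fin (n + 1)) // 0 < z 0} →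
    EuclideanSpace ℝ (Fin (n + 1))) := MeasurableEmbedding.subtype_coe (mob_half_meas n)
  have hmp : MeasurePreserving (Subtype.val : {z : EuclideanSpace ℝ (Fin (n + 1)) // 0 < z 0} →
      EuclideanSpace ℝ (Fin (n + 1)))
      (Measure.comap (Subtype.val : {z : EuclideanSpace ℝ (Fin (n + 1)) // 0 < z 0} →
        EuclideanSpace ℝ (Fin (n + 1))) volume)
      (volume.restrict (Set.range (Subtype.val : {z : EuclideanSpace ℝ (Fin (n + 1)) // 0 < z 0} →
        EuclideanSpace ℝ (Fin (n + 1))))) :=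
    ⟨he.measurable, he.map_comap _⟩
  rw [withDensity_apply _ hs]
  rw [← Set.inter_eq_self_of_subset_left (Set.image_subset_range Subtype.val s),
    ← Measure.restrict_restrict (he.measurableSet_image.mpr hs),
    ← hmp.setLIntegral_comp_emb he]
  refine setLIntegral_congr_fun hs fun z _ => ?_
  simp

theorem mob_hvol (n : ℕ) {s : Set (HSpace n)} (hs : MeasurableSet s) :
    hvol 1 n s = ∫⁻ z in Subtype.val '' s, ENNReal.ofReal ((z 0) ^ (n + 1))⁻¹ :=
  mob_hvol_aux n hs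

/-- change of variables -/
theorem mob_mp (n : ℕ) (g : Equiv.Perm (HSpace n))
    (f : EuclideanSpace ℝ (Fin (n + 1)) → EuclideanSpace ℝ (Fin (n + 1)))
    (f' : EuclideanSpace ℝ (Fin (n + 1)) →
      EuclideanSpace ℝ (Fin (n + 1)) →L[ℝ] EuclideanSpace ℝ (Fin (n + 1)))
    (hgf : ∀ z, (g z).1 = f z.1) (hf' : ∀ x, 0 < x 0 → HasFDerivAt f (f' x) x)
    (hdet : ∀ x, 0 < x 0 → |(f' x).det| = (f x 0 / x 0) ^ (n + 1)) :
    MeasurePreserving g (hvol 1 n) (hvol 1 n) := by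
  have hcont : Continuous (fun z : {z : EuclideanSpace ℝ (Fin (n + 1)) // 0 < z 0} => f z.1) := by
    have h0 : ContinuousOn f {z : EuclideanSpace ℝ (Fin (n + 1)) | 0 < z 0} :=
      fun x hx => (hf' x hx).continuousAt.continuousWithinAt
    exact continuousOn_iff_continuous_domRestrict.mp h0
  have hgm : Measurable g := by
    have h1 : Measurable (fun z : {z : EuclideanSpace ℝ (Fin (n + 1)) // 0 < z 0} => f z.1) :=
      hcont.measurable
    have h2 : Measurable (fun z : HSpace n => (g z).1) := by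
      have : (fun z : HSpace n => (g z).1) = fun z : HSpace n => f z.1 := funext hgf
      rw [this]
      exact h1
    exact (mob_emb n).measurable_comp_iff.mp h2
  refine ⟨hgm, ?_⟩
  ext s hs
  rw [Measure.map_apply hgm hs]
  set t := g ⁻¹' s with ht
  have hts : MeasurableSet t := hgm hs
  have hst : s = g '' t := by rw [ht, Set.image_preimage_eq _ g.surjective]
  rw [mob_hvol n hts, mob_hvol n hs]
  have himg : Subtype.val '' s = f '' (Subtype.val '' t) := by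
    rw [hst]
    ext x
    constructor
    · rintro ⟨_, ⟨z, hz, rfl⟩, rfl⟩
      exact ⟨z.1, ⟨z, hz, rfl⟩, (hgf z).symm⟩
    · rintro ⟨_, ⟨z, hz, rfl⟩, rfl⟩
      exact ⟨g z, ⟨z, hz, rfl⟩, hgf z⟩
  rw [himg]
  have hinj : InjOn f (Subtype.val '' t) := by
    rintro _ ⟨z, hz, rfl⟩ _ ⟨w, hw, rfl⟩ h
    have : g z = g w := Subtype.ext (by rw [hgf, hgf]; exact h)
    rw [g.injective this]
  rw [lintegral_image_eq_lintegral_abs_det_fderiv_mul volume
    ((mob_emb n).measurableSet_image.mpr hts)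
    (fun x hx => (hf' x (by obtain ⟨z, -, rfl⟩ := hx; exact z.2)).hasFDerivWithinAt) hinj]
  refine setLIntegral_congr_fun ((mob_emb n).measurableSet_image.mpr hts) fun x hx => ?_
  obtain ⟨z, -, rfl⟩ := hx
  have hz : 0 < z.1 0 := z.2
  have hgz : 0 < f z.1 0 := by rw [← hgf]; exact (g z).2
  simp only
  rw [hdet _ hz, ← ENNReal.ofReal_mul (by positivity)]
  congr 1
  rw [div_pow]
  field_simp

/-- the Moebius map on the ambient space -/
noncomputable def mobF {n : ℕ} (c c' x : EuclideanSpace ℝ (Fin (n + 1))) :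
    EuclideanSpace ℝ (Fin (n + 1)) := c' + (‖x - c‖ ^ 2)⁻¹ • (x - c)

theorem mobF_eq {n : ℕ} (c c' x : EuclideanSpace ℝ (Fin (n + 1))) :
    mobF c c' x = (c' - c) + EuclideanGeometry.inversion c 1 x := by
  unfold mobF EuclideanGeometry.inversion
  rw [dist_eq_norm, vsub_eq_sub, vadd_eq_add, one_div, inv_pow]
  abel

theorem mobF_zero {n : ℕ} {c c' : EuclideanSpace ℝ (Fin (n + 1))} (hc : c 0 = 0) (hc' : c' 0 = 0)
    (x : EuclideanSpace ℝ (Fin (n + 1))) : mobF c c' x 0 = (‖x - c‖ ^ 2)⁻¹ * x 0 := by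
  unfold mobF
  simp [hc, hc']

theorem mob_ne {n : ℕ} {c : EuclideanSpace ℝ (Fin (n + 1))} (hc : c 0 = 0)
    {x : EuclideanSpace ℝ (Fin (n + 1))} (hx : 0 < x 0) : x ≠ c := by
  rintro rfl
  linarith

theorem mob_norm_pos {n : ℕ} {c : EuclideanSpace ℝ (Fin (n + 1))} (hc : c 0 = 0)
    {x : EuclideanSpace ℝ (Fin (n + 1))} (hx : 0 < x 0) : 0 < ‖x - c‖ :=
  norm_pos_iff.mpr (sub_ne_zero.mpr (mob_ne hc hx))

theorem mobF_mobF {n : ℕ} {c c' : EuclideanSpace ℝ (Fin (n + 1))}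
    {x : EuclideanSpace ℝ (Fin (n + 1))} (hx : x ≠ c) : mobF c' c (mobF c c' x) = x := by
  have h1 : mobF c c' x - c' = (‖x - c‖ ^ 2)⁻¹ • (x - c) := by
    unfold mobF; abel
  have h2 : ‖x - c‖ ≠ 0 := norm_ne_zero_iff.mpr (sub_ne_zero.mpr hx)
  have h3 : ‖mobF c c' x - c'‖ = ‖x - c‖⁻¹ := by
    rw [h1, norm_smul, norm_inv, norm_pow, norm_norm]
    field_simp
  show c + (‖mobF c c' x - c'‖ ^ 2)⁻¹ • (mobF c c' x - c') = x
  rw [h3, h1, smul_smul]
  have h4 : (‖x - c‖⁻¹ ^ 2)⁻¹ * (‖x - c‖ ^ 2)⁻¹ = 1 := by field_simp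
  rw [h4, one_smul]
  abel

theorem mobF_dist {n : ℕ} {c c' : EuclideanSpace ℝ (Fin (n + 1))}
    {x y : EuclideanSpace ℝ (Fin (n + 1))} (hx : x ≠ c) (hy : y ≠ c) :
    dist (mobF c c' x) (mobF c c' y) = dist x y / (‖x - c‖ * ‖y - c‖) := by
  rw [mobF_eq, mobF_eq, dist_add_left, EuclideanGeometry.dist_inversion_inversion hx hy,
    dist_eq_norm x c, dist_eq_norm y c]
  ring

/-- the Moebius map as a permutation -/
noncomputable def mobG {n : ℕ} {c c' : EuclideanSpace ℝ (Fin (n + 1))} (hc : c 0 = 0)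
    (hc' : c' 0 = 0) : Equiv.Perm (HSpace n) where
  toFun z := ⟨mobF c c' z.1, by
    rw [mobF_zero hc hc']
    have := mob_norm_pos hc z.2
    have := z.2
    positivity⟩
  invFun z := ⟨mobF c' c z.1, by
    rw [mobF_zero hc' hc]
    have := mob_norm_pos hc' z.2
    have := z.2
    positivity⟩
  left_inv z := Subtype.ext (mobF_mobF (mob_ne hc z.2))
  right_inv z := Subtype.ext (mobF_mobF (mob_ne hc' z.2))

theorem mob_det {n : ℕ} (a : ℝ) (K : Submodule ℝ (EuclideanSpace ℝ (Fin (n + 1)))) :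
    |(a • (K.reflection : EuclideanSpace ℝ (Fin (n + 1)) →L[ℝ] EuclideanSpace ℝ (Fin (n + 1)))).det|
      = |a| ^ (n + 1) := by
  unfold ContinuousLinearMap.det
  rw [ContinuousLinearMap.toLinearMap_smul, LinearMap.det_smul, abs_mul, abs_pow]
  have h1 : (LinearMap.det ((K.reflection : EuclideanSpace ℝ (Fin (n + 1)) →L[ℝ]
      EuclideanSpace ℝ (Fin (n + 1))) : EuclideanSpace ℝ (Fin (n + 1)) →ₗ[ℝ]
      EuclideanSpace ℝ (Fin (n + 1)))) = (-1) ^ Module.finrank ℝ Kᗮ := K.det_reflection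
  rw [h1]
  simp

/-- MOB -/
theorem mob_proof (n : ℕ) (c c' : EuclideanSpace ℝ (Fin (n + 1))) (hc : c 0 = 0)
    (hc' : c' 0 = 0) : ∃ g : Equiv.Perm (HSpace n),
    (∀ z, (g z).1 = c' + (‖z.1 - c‖ ^ 2)⁻¹ • (z.1 - c)) ∧
    (∀ z, (g.symm z).1 = c + (‖z.1 - c'‖ ^ 2)⁻¹ • (z.1 - c')) ∧
    (∀ z w, hdist 1 (g z) (g w) = hdist 1 z w) ∧
    MeasurePreserving g (hvol 1 n) (hvol 1 n) := by
  refine ⟨mobG hc hc', fun z => rfl, fun z => rfl, fun z w => ?_, ?_⟩
  · unfold hdist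
    have hz := mob_norm_pos hc z.2
    have hw := mob_norm_pos hc w.2
    have hz0 : 0 < z.1 0 := z.2
    have hw0 : 0 < w.1 0 := w.2
    have h1 : dist (mobG hc hc' z).1 (mobG hc hc' w).1 =
        dist z.1 w.1 / (‖z.1 - c‖ * ‖w.1 - c‖) := mobF_dist (mob_ne hc z.2) (mob_ne hc w.2)
    have h2 : (mobG hc hc' z).1 0 * (mobG hc hc' w).1 0 =
        (z.1 0 * w.1 0) / (‖z.1 - c‖ * ‖w.1 - c‖) ^ 2 := by
      show mobF c c' z.1 0 * mobF c c' w.1 0 = _
      rw [mobF_zero hc hc', mobF_zero hc hc']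
      field_simp
    have h3 : √((mobG hc hc' z).1 0 * (mobG hc hc' w).1 0) =
        √(z.1 0 * w.1 0) / (‖z.1 - c‖ * ‖w.1 - c‖) := by
      rw [h2, Real.sqrt_div' _ (by positivity), Real.sqrt_sq (by positivity)]
    have h4 : dist z.1 w.1 / (‖z.1 - c‖ * ‖w.1 - c‖) /
        (2 * (√(z.1 0 * w.1 0) / (‖z.1 - c‖ * ‖w.1 - c‖))) =
        dist z.1 w.1 / (2 * √(z.1 0 * w.1 0)) := by
      have : √(z.1 0 * w.1 0) ≠ 0 := (Real.sqrt_pos.mpr (by positivity)).ne'
      field_simp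
    rw [h1, h3, h4]
  · refine mob_mp n (mobG hc hc') (mobF c c')
      (fun x => (1 / dist x c) ^ 2 • ((ℝ ∙ (x - c))ᗮ.reflection :
        EuclideanSpace ℝ (Fin (n + 1)) →L[ℝ] EuclideanSpace ℝ (Fin (n + 1))))
      (fun z => rfl) (fun x hx => ?_) (fun x hx => ?_)
    · have h1 := (EuclideanGeometry.hasFDerivAt_inversion (R := 1) (mob_ne hc hx)).const_add (c' - c)
      have h2 : mobF c c' = fun y => (c' - c) + EuclideanGeometry.inversion c 1 y :=
        funext fun y => mobF_eq c c' y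
      rw [h2]
      exact h1
    · rw [mob_det, mobF_zero hc hc', dist_eq_norm]
      have hz := mob_norm_pos hc hx
      rw [abs_of_nonneg (by positivity)]
      congr 1
      field_simp

end Pool.Agent.BB
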